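import Pool.Agent.Helper45.LS.L3.D

set_option autoImplicit false
set_option maxRecDepth 100000

/-!
Link certificate L3: the finite check.
-/

namespace LS.L3

open LS

theorem k0 : chk C 0 = true := by decide +kernel

theorem k1 : chk C 1 = true := by decide +kernel

theorem k2 : chk C 2 = true := by decide +kernel

theorem k3 : chk C 3 = true := by decide +kernel

theorem k4 : chk C 4 = true := by decide +kernel

theorem k5 : chk C 5 = true := by decide +kernel

theorem k6 : chk C 6 = true := by decide +kernel

theorem k7 : chk C 7 = true := by decide +kernel

theorem k8 : chk C 8 = true := by decide +kernel

theorem k9 : chk C 9 = true := by decide +kernel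

end LS.L3
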