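import Pool.Agent.Helper45.LS.L3.D

set_option autoImplicit false
set_option maxRecDepth 100000

/-!
Link certificate L3: the finite check.
-/

namespace LS.L3

open LS

theorem k10 : chk C 10 = true := by decide +kernel

theorem k11 : chk C 11 = true := by decide +kernel

theorem k12 : chk C 12 = true := by decide +kernel

theorem k13 : chk C 13 = true := by decide +kernel

theorem k14 : chk C 14 = true := by decide +kernel

theorem k15 : chk C 15 = true := by decide +kernel

theorem k16 : chk C 16 = true := by decide +kernel

theorem k17 : chk C 17 = true := by decide +kernel

theorem k18 : chk C 18 = true := by decide +kernel

theorem k19 : chk C 19 = true := by decide +kernel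

end LS.L3
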